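import Mathlib

/-! A latin square of order 6 (a 2-dimensional latin hypercube) with a 5-multiplex
and no 5-plex. -/

namespace Pool.Agent.Results.MP_a6ecd6_co.MultiplexNotPlex

/-- `Q` is a `d`-dimensional latin hypercube of order `n`: when all coordinates but one are
fixed, the remaining coordinate produces every symbol exactly once. -/
def IsLatinHypercube {d n : ℕ} (Q : (Fin d → Fin n) → Fin n) : Prop :=
  ∀ (x : Fin d → Fin n) (i : Fin d),
    Function.Bijective (fun a : Fin n => Q (Function.update x i a))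

/-- `K` is a `k`-multiplex of `Q`: a multiset of `k * n` cells such that every hyperplane
`x i = a` and every symbol is covered exactly `k` times, counted with multiplicity. -/
def IsMultiplex {d n : ℕ} (Q : (Fin d → Fin n) → Fin n) (k : ℕ)
    (K : Multiset (Fin d → Fin n)) : Prop :=
  Multiset.card K = k * n ∧
  (∀ (i : Fin d) (a : Fin n), Multiset.card (K.filter (fun x => x i = a)) = k) ∧
  (∀ s : Fin n, Multiset.card (K.filter (fun x => Q x = s)) = k)

/-- `K` is a `k`-plex of `Q`: a `k`-multiplex without repeated cells. -/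
def IsPlex {d n : ℕ} (Q : (Fin d → Fin n) → Fin n) (k : ℕ)
    (K : Multiset (Fin d → Fin n)) : Prop :=
  IsMultiplex Q k K ∧ K.Nodup

/-- The entries of the latin square. -/
def L : Fin 6 → Fin 6 → Fin 6 :=
  ![![1, 0, 5, 4, 2, 3],
    ![3, 2, 4, 1, 0, 5],
    ![0, 3, 2, 5, 4, 1],
    ![2, 5, 0, 3, 1, 4],
    ![5, 4, 1, 0, 3, 2],
    ![4, 1, 3, 2, 5, 0]]

/-- The latin square as a 2-dimensional latin hypercube. -/
def Q : (Fin 2 → Fin 6) → Fin 6 := fun x => L (x 0) (x 1)

/-- Multiplicities of the 5-multiplex. -/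
def M : Fin 6 → Fin 6 → ℕ :=
  ![![2, 2, 1, 0, 0, 0],
    ![2, 1, 2, 0, 0, 0],
    ![0, 1, 1, 2, 0, 1],
    ![0, 0, 1, 1, 2, 1],
    ![0, 1, 0, 1, 1, 2],
    ![1, 0, 0, 1, 2, 1]]

theorem latin_row : ∀ r : Fin 6, Function.Injective (fun c => L r c) := by
  unfold Function.Injective
  decide +kernel

theorem latin_col : ∀ c : Fin 6, Function.Injective (fun r => L r c) := by
  unfold Function.Injective
  decide +kernel

theorem latin : IsLatinHypercube Q := by
  intro x i
  rw [← Finite.injective_iff_bijective]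
  fin_cases i
  · intro a b h
    have h' : L a (x 1) = L b (x 1) := by
      simpa [Q, Function.update] using h
    exact latin_col (x 1) h'
  · intro a b h
    have h' : L (x 0) a = L (x 0) b := by
      simpa [Q, Function.update] using h
    exact latin_row (x 0) h'

/-- The 5-multiplex as a multiset. -/
def K5 : Multiset (Fin 2 → Fin 6) :=
  ∑ r : Fin 6, ∑ c : Fin 6, Multiset.replicate (M r c) ![r, c]

theorem card_filter_K5 (p : (Fin 2 → Fin 6) → Prop) [DecidablePred p] :
    Multiset.card (K5.filter p) = ∑ r : Fin 6, ∑ c : Fin 6, if p ![r, c] then M r c else 0 := by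
  have key : ∀ (s : Finset (Fin 6)) (f : Fin 6 → Multiset (Fin 2 → Fin 6)),
      Multiset.card ((∑ r ∈ s, f r).filter p) = ∑ r ∈ s, Multiset.card ((f r).filter p) := by
    intro s f
    induction s using Finset.induction_on with
    | empty => simp
    | insert a s ha ih =>
      rw [Finset.sum_insert ha, Finset.sum_insert ha, Multiset.filter_add, Multiset.card_add, ih]
  unfold K5
  rw [key]
  refine Finset.sum_congr rfl fun r _ => ?_
  rw [key]
  refine Finset.sum_congr rfl fun c _ => ?_
  by_cases h : p ![r, c]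
  · rw [if_pos h, Multiset.filter_eq_self.2, Multiset.card_replicate]
    intro a ha
    rw [Multiset.eq_of_mem_replicate ha]
    exact h
  · rw [if_neg h, Multiset.card_eq_zero, Multiset.filter_eq_nil]
    intro a ha
    rw [Multiset.eq_of_mem_replicate ha]
    exact h

theorem multiplex : IsMultiplex Q 5 K5 := by
  refine ⟨?_, ?_, ?_⟩
  · have h := card_filter_K5 (fun _ => True)
    rw [Multiset.filter_true] at h
    rw [h]
    decide +kernel
  · intro i a
    rw [card_filter_K5]
    revert i a
    decide +kernel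
  · intro s
    rw [card_filter_K5]
    revert s
    decide +kernel

/-- Row by row search for a transversal avoiding the columns `cs` and the symbols `ss`. -/
def srch : List (Fin 6) → List (Fin 6) → List (Fin 6) → Bool
  | [], _, _ => true
  | r :: rs, cs, ss => (List.finRange 6).any fun a =>
      !(decide (a ∈ cs)) && !(decide (L r a ∈ ss)) && srch rs (a :: cs) (L r a :: ss)

theorem srch_false : srch (List.finRange 6) [] [] = false := by
  decide +kernel

theorem srch_true (t : Fin 6 → Fin 6) (h1 : ∀ r s : Fin 6, r ≠ s → t r ≠ t s)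
    (h2 : ∀ r s : Fin 6, r ≠ s → L r (t r) ≠ L s (t s)) :
    ∀ (rows cs ss : List (Fin 6)), rows.Nodup →
      (∀ r ∈ rows, t r ∉ cs ∧ L r (t r) ∉ ss) → srch rows cs ss = true := by
  intro rows
  induction rows with
  | nil => intro cs ss _ _; rfl
  | cons r rs ih =>
    intro cs ss hnd h
    rw [List.nodup_cons] at hnd
    unfold srch
    rw [List.any_eq_true]
    refine ⟨t r, List.mem_finRange _, ?_⟩
    have hr := h r (by simp)
    have hrest := ih (t r :: cs) (L r (t r) :: ss) hnd.2 (by
      intro r' hr'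
      have hne : r' ≠ r := fun e => hnd.1 (e ▸ hr')
      have hr2 := h r' (by simp [hr'])
      simp only [List.mem_cons, not_or]
      exact ⟨⟨h1 _ _ hne, hr2.1⟩, ⟨h2 _ _ hne, hr2.2⟩⟩)
    simp [hr.1, hr.2, hrest]

theorem no_transversal (t : Fin 6 → Fin 6) (h1 : ∀ r s : Fin 6, r ≠ s → t r ≠ t s)
    (h2 : ∀ r s : Fin 6, r ≠ s → L r (t r) ≠ L s (t s)) : False := by
  have h := srch_true t h1 h2 (List.finRange 6) [] [] (List.nodup_finRange 6) (by simp)
  rw [srch_false] at h
  exact absurd h (by decide)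

theorem no_plex (K : Multiset (Fin 2 → Fin 6)) (hK : IsPlex Q 5 K) : False := by
  obtain ⟨⟨-, hH, hS⟩, hnd⟩ := hK
  -- the complement meets every fibre of size 6 in exactly one cell
  have key : ∀ (p : (Fin 2 → Fin 6) → Prop) [DecidablePred p],
      (Finset.univ.filter p).card = 6 → Multiset.card (K.filter p) = 5 →
      (Finset.univ.filter (fun x => p x ∧ x ∉ K)).card = 1 := by
    intro p _ h6 h5
    have h5' : (Finset.univ.filter (fun x => p x ∧ x ∈ K)).card = 5 := by
      rw [← h5, ← Multiset.toFinset_card_of_nodup (hnd.filter p)]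
      congr 1
      ext x
      simp [and_comm]
    have hsplit := Finset.card_filter_add_card_filter_not (s := Finset.univ.filter p)
      (fun x => x ∈ K)
    rw [Finset.filter_filter, Finset.filter_filter, h5', h6] at hsplit
    omega
  have hrow6 : ∀ (i : Fin 2) (a : Fin 6),
      (Finset.univ.filter (fun x : Fin 2 → Fin 6 => x i = a)).card = 6 := by
    decide +kernel
  have hsym6 : ∀ (s : Fin 6),
      (Finset.univ.filter (fun x : Fin 2 → Fin 6 => Q x = s)).card = 6 := by
    decide +kernel
  have hrow : ∀ r : Fin 6, ∃ x : Fin 2 → Fin 6, x 0 = r ∧ x ∉ K := by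
    intro r
    have h := key (fun x => x 0 = r) (hrow6 0 r) (hH 0 r)
    obtain ⟨x, hx⟩ := Finset.card_eq_one.1 h
    have : x ∈ (Finset.univ.filter (fun x : Fin 2 → Fin 6 => x 0 = r ∧ x ∉ K)) := by
      rw [hx]; exact Finset.mem_singleton_self x
    exact ⟨x, (Finset.mem_filter.1 this).2⟩
  choose t ht0 htK using hrow
  have hcol : ∀ r s : Fin 6, r ≠ s → t r 1 ≠ t s 1 := by
    intro r s hrs h
    have hc := key (fun x => x 1 = t s 1) (hrow6 1 (t s 1)) (hH 1 (t s 1))
    have := Finset.card_le_one.1 hc.le (t r) (by simp [h, htK]) (t s) (by simp [htK])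
    apply hrs
    rw [← ht0 r, ← ht0 s, this]
  have hsym : ∀ r s : Fin 6, r ≠ s → L r (t r 1) ≠ L s (t s 1) := by
    intro r s hrs h
    have h1 : Q (t r) = L r (t r 1) := by simp [Q, ht0]
    have h2 : Q (t s) = L s (t s 1) := by simp [Q, ht0]
    have hc := key (fun x => Q x = Q (t s)) (hsym6 (Q (t s))) (hS (Q (t s)))
    have := Finset.card_le_one.1 hc.le (t r) (by simp [h1, h2, h, htK]) (t s) (by simp [htK])
    apply hrs
    rw [← ht0 r, ← ht0 s, this]
  exact no_transversal (fun r => t r 1) hcol hsym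

/-- There are `d ≥ 2`, `n ≥ 1`, `1 ≤ k ≤ n ^ (d - 1)` and a `d`-dimensional latin hypercube of
order `n` with a `k`-multiplex but no `k`-plex; in fact `d = 2`, `n = 6`, `k = 5`. -/
theorem result : ∃ (d n k : ℕ) (Q : (Fin d → Fin n) → Fin n),
    d = 2 ∧ n = 6 ∧ k = 5 ∧ 2 ≤ d ∧ 1 ≤ n ∧ 1 ≤ k ∧ k ≤ n ^ (d - 1) ∧
    IsLatinHypercube Q ∧ (∃ K, IsMultiplex Q k K) ∧ ¬ ∃ K, IsPlex Q k K :=
  ⟨2, 6, 5, Q, rfl, rfl, rfl, by norm_num, by norm_num, by norm_num, by norm_num,
    latin, ⟨K5, multiplex⟩, fun ⟨K, hK⟩ => no_plex K hK⟩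

end Pool.Agent.Results.MP_a6ecd6_co.MultiplexNotPlex
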